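import Mathlib
import Pool.Agent.Q167.LQ.One
set_option autoImplicit false

/-!
# Yau's upper bound for the nodal length on smooth Liouville spheres

A Liouville metric on the sphere (the sphere metrics whose geodesic flow has a first integral
quadratic in the momenta, for example all triaxial ellipsoids) is the metric
`(a(x) + b(y)) (dx² + dy²)` on the quotient of the torus `ℝ²/(2pℤ × 2qℤ)` by `(x, y) ↦ (-x, -y)`,
where `a` and `b` are smooth, even, nonnegative, `2p`- and `2q`-periodic functions which vanish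
exactly on `pℤ` and `qℤ`. The conformal factor vanishes at the four branch points of the double
cover `torus → sphere`. A smooth eigenfunction on the sphere with eigenvalue `λ` lifts to a smooth
even function `φ` on the torus with `φ_xx + φ_yy + λ (a(x) + b(y)) φ = 0`. No analyticity is assumed,
and the matching of the Taylor coefficients of `a` and `b`, which makes the metric smooth at the
branch points, is not needed.

We prove that for ALL eigenfunctions with `λ > 0` the Riemannian length of the nodal set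
`{φ = 0}` is at most `48 (p + q)² (sup (a + b)) √λ`, and that `φ` has at most `2p √(λ sup (a + b))`
zeros on every closed coordinate line `{y = const}` on which it does not vanish identically, and at
most `2q √(λ sup (a + b))` on every closed coordinate line `{x = const}`.

The number of separated solutions in an eigenfunction is not bounded. The proof uses Sturm's
argument: the operator `M - ∂_x² - λ a(x) = M + ∂_y² + λ b(y)` (on the eigenspace) does not decrease
the number of zeros on a coordinate line, and its powers converge to a single separated solution. The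
length is then bounded by a covering argument and the maximum principle in small rectangles, which
holds also where the conformal factor vanishes.
-/

namespace Pool.Agent.Results.MP_c7f82c_an.LiouvilleSpheres

open Set MeasureTheory Measure
open scoped ContDiff

/-- `(a(x) + b(y)) (dx² + dy²)` is a Liouville metric on the sphere
`(ℝ²/(2pℤ × 2qℤ)) / {(x, y) ~ (-x, -y)}`, positive outside the four branch points. -/
structure IsLiouvilleSphere (p q : ℝ) (a b : ℝ → ℝ) : Prop where
  p_pos : 0 < p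
  q_pos : 0 < q
  a_smooth : ContDiff ℝ ∞ a
  b_smooth : ContDiff ℝ ∞ b
  a_periodic : ∀ x, a (x + 2 * p) = a x
  b_periodic : ∀ y, b (y + 2 * q) = b y
  a_even : ∀ x, a (-x) = a x
  b_even : ∀ y, b (-y) = b y
  a_nonneg : ∀ x, 0 ≤ a x
  b_nonneg : ∀ y, 0 ≤ b y
  a_eq_zero : ∀ x, a x = 0 ↔ ∃ m : ℤ, x = m * p
  b_eq_zero : ∀ y, b y = 0 ↔ ∃ n : ℤ, y = n * q

/-- `φ ≢ 0` is the lift to the plane of an eigenfunction with eigenvalue `lam` of the
Laplace–Beltrami operator of the sphere `(ℝ²/(2pℤ × 2qℤ)) / {(x, y) ~ (-x, -y)}` with the metric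
`(a(x)+b(y)) (dx² + dy²)`. -/
structure IsEigenfunction (p q : ℝ) (a b : ℝ → ℝ) (lam : ℝ) (φ : ℝ × ℝ → ℝ) : Prop where
  smooth : ContDiff ℝ ∞ φ
  periodic_x : ∀ x y, φ (x + 2 * p, y) = φ (x, y)
  periodic_y : ∀ x y, φ (x, y + 2 * q) = φ (x, y)
  even : ∀ x y, φ (-x, -y) = φ (x, y)
  ne_zero : φ ≠ 0
  eq : ∀ x y, iteratedDeriv 2 (fun s => φ (s, y)) x + iteratedDeriv 2 (fun t => φ (x, t)) y +
    lam * ((a x + b y) * φ (x, y)) = 0

/-- The part of the nodal set in the fundamental domain `[0, 2p] × [0, q]` of the sphere, as a subset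
of the Euclidean plane `ℂ`. -/
def nodalSet (p q : ℝ) (φ : ℝ × ℝ → ℝ) : Set ℂ :=
  {z | (0 ≤ z.re ∧ z.re ≤ 2 * p) ∧ (0 ≤ z.im ∧ z.im ≤ q) ∧ φ (z.re, z.im) = 0}

/-- The length of the nodal set for the metric `(a(x)+b(y)) (dx² + dy²)`: the integral of
`√(a(x)+b(y))` over the nodal set with respect to the one-dimensional Hausdorff measure of the
Euclidean plane. -/
noncomputable def nodalLength (p q : ℝ) (a b : ℝ → ℝ) (φ : ℝ × ℝ → ℝ) : ENNReal :=
  ∫⁻ z in nodalSet p q φ, ENNReal.ofReal (√(a z.re + b z.im)) ∂μH[1]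

theorem result (p q : ℝ) (a b : ℝ → ℝ) (hab : IsLiouvilleSphere p q a b)
    (R : ℝ) (hR : ∀ x y, a x + b y ≤ R) (lam : ℝ) (hlam : 0 < lam)
    (φ : ℝ × ℝ → ℝ) (hφ : IsEigenfunction p q a b lam φ) :
    nodalLength p q a b φ ≤ ENNReal.ofReal (48 * (p + q) ^ 2 * R * √lam) ∧
    (∀ y, (∃ x, φ (x, y) ≠ 0) → {x | φ (x, y) = 0 ∧ 0 ≤ x ∧ x < 2 * p}.Finite ∧
      ({x | φ (x, y) = 0 ∧ 0 ≤ x ∧ x < 2 * p}.ncard : ℝ) ≤ 2 * p * √(lam * R)) ∧
    ∀ x, (∃ y, φ (x, y) ≠ 0) → {y | φ (x, y) = 0 ∧ 0 ≤ y ∧ y < 2 * q}.Finite ∧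
      ({y | φ (x, y) = 0 ∧ 0 ≤ y ∧ y < 2 * q}.ncard : ℝ) ≤ 2 * q * √(lam * R) := by
  have hp := hab.p_pos
  have hq := hab.q_pos
  have h₁ : 0 < 2 * p := by positivity
  have h₂ : 0 < 2 * q := by positivity
  have ha := hab.a_smooth
  have hb := hab.b_smooth
  have hap : Function.Periodic a (2 * p) := hab.a_periodic
  have hbp : Function.Periodic b (2 * q) := hab.b_periodic
  have hpos : ∀ x y, 0 ≤ a x + b y := fun x y => add_nonneg (hab.a_nonneg x) (hab.b_nonneg y)
  have hR0 : 0 < R := by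
    have h1 : a (p / 2) ≠ 0 := by
      intro h
      obtain ⟨m, hm⟩ := (hab.a_eq_zero _).1 h
      have h2 : ((2 * m : ℤ) : ℝ) = ((1 : ℤ) : ℝ) := by
        push_cast
        have h3 : p * (2 * m) = p * 1 := by linarith
        exact mul_left_cancel₀ hp.ne' h3
      have h4 : (2 * m : ℤ) = 1 := by exact_mod_cast h2
      omega
    have h2 : 0 < a (p / 2) := lt_of_le_of_ne (hab.a_nonneg _) (Ne.symm h1)
    have h3 := hab.b_nonneg 0
    have h4 := hR (p / 2) 0
    linarith
  open Pool.Agent.Q167.LV in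
  set α : ℝ → ℝ := fun x => lam * a x with hα
  set β : ℝ → ℝ := fun y => lam * b y with hβ
  set K : ℝ := √(lam * R) with hK
  have hK0 : 0 < K := Real.sqrt_pos.2 (mul_pos hlam hR0)
  have hK2 : K ^ 2 = lam * R := Real.sq_sqrt (mul_pos hlam hR0).le
  have hαs : ContDiff ℝ ∞ α := contDiff_const.mul ha
  have hβs : ContDiff ℝ ∞ β := contDiff_const.mul hb
  have hαp : Function.Periodic α (2 * p) := fun x => by simp only [hα, hap x]
  have hβp : Function.Periodic β (2 * q) := fun x => by simp only [hβ, hbp x]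
  have hpos' : ∀ x y, 0 ≤ α x + β y := fun x y => by
    have := mul_nonneg hlam.le (hpos x y)
    simp only [hα, hβ]; linarith
  have hle' : ∀ x y, α x + β y ≤ K ^ 2 := fun x y => by
    have := mul_le_mul_of_nonneg_left (hR x y) hlam.le
    rw [hK2]
    simp only [hα, hβ]; linarith
  have hs := hφ.smooth
  have hsol : Sol (2 * p) (2 * q) α β φ := by
    refine ⟨hs, ⟨hφ.periodic_x, hφ.periodic_y⟩, ?_⟩
    rintro ⟨x, y⟩
    have e1 : iteratedDeriv 2 (fun s => φ (s, y)) x = px (px φ) (x, y) := by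
      rw [iteratedDeriv_succ, iteratedDeriv_one]
      have : deriv (fun s => φ (s, y)) = fun s => px φ (s, y) := funext fun s => (hx hs s y).deriv
      rw [this]
      exact (hx (px_smooth hs) x y).deriv
    have e2 : iteratedDeriv 2 (fun t => φ (x, t)) y = py (py φ) (x, y) := by
      rw [iteratedDeriv_succ, iteratedDeriv_one]
      have : deriv (fun t => φ (x, t)) = fun t => py φ (x, t) := funext fun t => (hy hs x t).deriv
      rw [this]
      exact (hy (py_smooth hs) x y).deriv
    have e3 := hφ.eq x y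
    rw [e1, e2] at e3
    simp only [hα, hβ]
    linarith
  have hne : ∃ z, φ z ≠ 0 := by
    by_contra hcon
    push Not at hcon
    exact hφ.ne_zero (funext hcon)
  obtain ⟨cx, cy⟩ := circle h₁ h₂ hαs hβs hαp hβp hK0 hle' hsol
  have fin : ∀ {L : ℝ} {u : ℝ → ℝ}, 0 < L → Function.Periodic u L →
      (∀ n, 0 < n → ZZ L u n → (n : ℝ) ≤ L * K) →
      {x | u x = 0 ∧ 0 ≤ x ∧ x < L}.Finite ∧ ({x | u x = 0 ∧ 0 ≤ x ∧ x < L}.ncard : ℝ) ≤ L * K := by
    intro L u hL hu hc
    obtain ⟨f1, f2⟩ := zeros_finite hu hc 0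
    simp only [zero_add] at f1 f2
    refine ⟨f1, ?_⟩
    rw [ncard_eq_toFinset_card _ f1]
    rcases Nat.eq_zero_or_pos f1.toFinset.card with h | h
    · rw [h]; simp only [Nat.cast_zero]; positivity
    · exact f2 _ h fun x hx => by simpa using hx
  refine ⟨?_, fun y hy => fin h₁ (fun x => hφ.periodic_x x y) (cx y hy),
    fun x hx => fin h₂ (fun y => hφ.periodic_y x y) (cy x hx)⟩
  have hN := Pool.Agent.Q167.LQ.nodal h₁ h₂ hαs hβs hαp hβp hK0 hpos' hle' hsol hne
  unfold nodalLength
  have hsub : nodalSet p q φ ⊆ {z : ℂ | (0 ≤ z.re ∧ z.re ≤ 2 * p) ∧ (0 ≤ z.im ∧ z.im ≤ 2 * q) ∧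
      φ (z.re, z.im) = 0} := by
    rintro z ⟨h1, h2, h3⟩
    exact ⟨h1, ⟨h2.1, by linarith [h2.2]⟩, h3⟩
  calc ∫⁻ z in nodalSet p q φ, ENNReal.ofReal (√(a z.re + b z.im)) ∂μH[1]
      ≤ ∫⁻ _z in nodalSet p q φ, ENNReal.ofReal (√R) ∂μH[1] := by
        apply lintegral_mono
        intro z
        exact ENNReal.ofReal_le_ofReal (Real.sqrt_le_sqrt (hR _ _))
    _ = ENNReal.ofReal (√R) * μH[1] (nodalSet p q φ) := setLIntegral_const _ _
    _ ≤ ENNReal.ofReal (√R) * ENNReal.ofReal (12 * (2 * p + 2 * q) ^ 2 * K) := by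
        gcongr
        exact (measure_mono hsub).trans hN
    _ = ENNReal.ofReal (48 * (p + q) ^ 2 * R * √lam) := by
        rw [← ENNReal.ofReal_mul (Real.sqrt_nonneg _)]
        congr 1
        rw [hK, Real.sqrt_mul hlam.le]
        have : √R * √R = R := Real.mul_self_sqrt hR0.le
        calc √R * (12 * (2 * p + 2 * q) ^ 2 * (√lam * √R)) =
            48 * (p + q) ^ 2 * (√R * √R) * √lam := by ring
          _ = _ := by rw [this]

end Pool.Agent.Results.MP_c7f82c_an.LiouvilleSpheres
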