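import Mathlib
import Pool.Agent.Q167.LV.Nine
set_option autoImplicit false

/-!
# Yau's upper bound for the nodal length on smooth Liouville tori

Let `a` be a smooth `L₁`-periodic function and `b` a smooth `L₂`-periodic function with
`a(x) + b(y) > 0`. The Liouville metric `ρ (dx² + dy²)`, `ρ(x, y) = a(x) + b(y)`, on the torus
`ℝ²/(L₁ℤ × L₂ℤ)` has the Laplacian `ρ⁻¹ (∂ₓ² + ∂_y²)`, so that its eigenfunctions with eigenvalue `λ`
are the smooth doubly periodic functions `φ` with `φ_xx + φ_yy + λ ρ φ = 0`. For `b` constant these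
are the metrics invariant under the rotations in `y`. No analyticity is assumed.

We prove that for ALL eigenfunctions with `λ > 0` the Riemannian length of the nodal set
`{φ = 0}` is at most `12 (L₁ + L₂)² (sup ρ) √λ`, and that `φ` has at most `L₁ √(λ sup ρ)` zeros on
every circle `{y = const}` on which it does not vanish identically, and at most `L₂ √(λ sup ρ)` on
every circle `{x = const}`.

The number of separated solutions in an eigenfunction is not bounded. The proof uses Sturm's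
argument: the operator `M - ∂_x² - λ a(x) = M + ∂_y² + λ b(y)` (on the eigenspace) does not decrease
the number of zeros on a circle, and its powers converge to a single separated solution. The length
is then bounded by a covering argument and the maximum principle in small rectangles.
-/

namespace Pool.Agent.Results.MP_c7f82c_an.LiouvilleTori

open Set MeasureTheory Measure
open scoped ContDiff

/-- `φ ≢ 0` is (the doubly periodic lift of) an eigenfunction with eigenvalue `lam` of the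
Laplace–Beltrami operator of the torus `ℝ²/(L₁ℤ × L₂ℤ)` with the metric `(a(x)+b(y)) (dx² + dy²)`. -/
structure IsEigenfunction (L₁ L₂ : ℝ) (a b : ℝ → ℝ) (lam : ℝ) (φ : ℝ × ℝ → ℝ) : Prop where
  smooth : ContDiff ℝ ∞ φ
  periodic_x : ∀ x y, φ (x + L₁, y) = φ (x, y)
  periodic_y : ∀ x y, φ (x, y + L₂) = φ (x, y)
  ne_zero : φ ≠ 0
  eq : ∀ x y, iteratedDeriv 2 (fun s => φ (s, y)) x + iteratedDeriv 2 (fun t => φ (x, t)) y +
    lam * ((a x + b y) * φ (x, y)) = 0

/-- The part of the nodal set in the period rectangle, as a subset of the Euclidean plane `ℂ`. -/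
def nodalSet (L₁ L₂ : ℝ) (φ : ℝ × ℝ → ℝ) : Set ℂ :=
  {z | (0 ≤ z.re ∧ z.re ≤ L₁) ∧ (0 ≤ z.im ∧ z.im ≤ L₂) ∧ φ (z.re, z.im) = 0}

/-- The length of the nodal set for the metric `(a(x)+b(y)) (dx² + dy²)`: the integral of
`√(a(x)+b(y))` over the nodal set with respect to the one-dimensional Hausdorff measure of the
Euclidean plane. -/
noncomputable def nodalLength (L₁ L₂ : ℝ) (a b : ℝ → ℝ) (φ : ℝ × ℝ → ℝ) : ENNReal :=
  ∫⁻ z in nodalSet L₁ L₂ φ, ENNReal.ofReal (√(a z.re + b z.im)) ∂μH[1]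

theorem result (L₁ L₂ : ℝ) (h₁ : 0 < L₁) (h₂ : 0 < L₂) (a b : ℝ → ℝ) (ha : ContDiff ℝ ∞ a)
    (hb : ContDiff ℝ ∞ b) (hap : Function.Periodic a L₁) (hbp : Function.Periodic b L₂)
    (hpos : ∀ x y, 0 < a x + b y) (R : ℝ) (hR : ∀ x y, a x + b y ≤ R) (lam : ℝ) (hlam : 0 < lam)
    (φ : ℝ × ℝ → ℝ) (hφ : IsEigenfunction L₁ L₂ a b lam φ) :
    nodalLength L₁ L₂ a b φ ≤ ENNReal.ofReal (12 * (L₁ + L₂) ^ 2 * R * √lam) ∧
    (∀ y, (∃ x, φ (x, y) ≠ 0) → {x | φ (x, y) = 0 ∧ 0 ≤ x ∧ x < L₁}.Finite ∧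
      ({x | φ (x, y) = 0 ∧ 0 ≤ x ∧ x < L₁}.ncard : ℝ) ≤ L₁ * √(lam * R)) ∧
    ∀ x, (∃ y, φ (x, y) ≠ 0) → {y | φ (x, y) = 0 ∧ 0 ≤ y ∧ y < L₂}.Finite ∧
      ({y | φ (x, y) = 0 ∧ 0 ≤ y ∧ y < L₂}.ncard : ℝ) ≤ L₂ * √(lam * R) := by
  open Pool.Agent.Q167.LV in
  set α : ℝ → ℝ := fun x => lam * a x with hα
  set β : ℝ → ℝ := fun y => lam * b y with hβ
  have hR0 : 0 < R := lt_of_lt_of_le (hpos 0 0) (hR 0 0)
  set K : ℝ := √(lam * R) with hK
  have hK0 : 0 < K := Real.sqrt_pos.2 (mul_pos hlam hR0)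
  have hK2 : K ^ 2 = lam * R := Real.sq_sqrt (mul_pos hlam hR0).le
  have hαs : ContDiff ℝ ∞ α := contDiff_const.mul ha
  have hβs : ContDiff ℝ ∞ β := contDiff_const.mul hb
  have hαp : Function.Periodic α L₁ := fun x => by simp only [hα, hap x]
  have hβp : Function.Periodic β L₂ := fun x => by simp only [hβ, hbp x]
  have hpos' : ∀ x y, 0 < α x + β y := fun x y => by
    have := mul_pos hlam (hpos x y)
    simp only [hα, hβ]; linarith
  have hle' : ∀ x y, α x + β y ≤ K ^ 2 := fun x y => by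
    have := mul_le_mul_of_nonneg_left (hR x y) hlam.le
    rw [hK2]
    simp only [hα, hβ]; linarith
  have hs := hφ.smooth
  have hsol : Sol L₁ L₂ α β φ := by
    refine ⟨hs, ⟨hφ.periodic_x, hφ.periodic_y⟩, ?_⟩
    rintro ⟨x, y⟩
    have e1 : iteratedDeriv 2 (fun s => φ (s, y)) x = px (px φ) (x, y) := by
      rw [iteratedDeriv_succ, iteratedDeriv_one]
      have : deriv (fun s => φ (s, y)) = fun s => px φ (s, y) := funext fun s => (hx hs s y).deriv
      rw [this]
      exact (hx (px_smooth hs) x y).deriv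
    have e2 : iteratedDeriv 2 (fun t => φ (x, t)) y = py (py φ) (x, y) := by
      rw [iteratedDeriv_succ, iteratedDeriv_one]
      have : deriv (fun t => φ (x, t)) = fun t => py φ (x, t) := funext fun t => (hy hs x t).deriv
      rw [this]
      exact (hy (py_smooth hs) x y).deriv
    have e3 := hφ.eq x y
    rw [e1, e2] at e3
    simp only [hα, hβ]
    linarith
  have hne : ∃ z, φ z ≠ 0 := by
    by_contra hcon
    push Not at hcon
    exact hφ.ne_zero (funext hcon)
  obtain ⟨cx, cy⟩ := circle h₁ h₂ hαs hβs hαp hβp hK0 hle' hsol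
  have fin : ∀ {L : ℝ} {u : ℝ → ℝ}, 0 < L → Function.Periodic u L →
      (∀ n, 0 < n → ZZ L u n → (n : ℝ) ≤ L * K) →
      {x | u x = 0 ∧ 0 ≤ x ∧ x < L}.Finite ∧ ({x | u x = 0 ∧ 0 ≤ x ∧ x < L}.ncard : ℝ) ≤ L * K := by
    intro L u hL hu hc
    obtain ⟨f1, f2⟩ := zeros_finite hu hc 0
    simp only [zero_add] at f1 f2
    refine ⟨f1, ?_⟩
    rw [ncard_eq_toFinset_card _ f1]
    rcases Nat.eq_zero_or_pos f1.toFinset.card with h | h
    · rw [h]; simp only [Nat.cast_zero]; positivity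
    · exact f2 _ h fun x hx => by simpa using hx
  refine ⟨?_, fun y hy => fin h₁ (fun x => hφ.periodic_x x y) (cx y hy),
    fun x hx => fin h₂ (fun y => hφ.periodic_y x y) (cy x hx)⟩
  have hN := nodal h₁ h₂ hαs hβs hαp hβp hK0 hpos' hle' hsol hne
  unfold nodalLength
  calc ∫⁻ z in nodalSet L₁ L₂ φ, ENNReal.ofReal (√(a z.re + b z.im)) ∂μH[1]
      ≤ ∫⁻ _z in nodalSet L₁ L₂ φ, ENNReal.ofReal (√R) ∂μH[1] := by
        apply lintegral_mono
        intro z
        exact ENNReal.ofReal_le_ofReal (Real.sqrt_le_sqrt (hR _ _))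
    _ = ENNReal.ofReal (√R) * μH[1] (nodalSet L₁ L₂ φ) := setLIntegral_const _ _
    _ ≤ ENNReal.ofReal (√R) * ENNReal.ofReal (12 * (L₁ + L₂) ^ 2 * K) := by gcongr; exact hN
    _ = ENNReal.ofReal (12 * (L₁ + L₂) ^ 2 * R * √lam) := by
        rw [← ENNReal.ofReal_mul (Real.sqrt_nonneg _)]
        congr 1
        rw [hK, Real.sqrt_mul hlam.le]
        have : √R * √R = R := Real.mul_self_sqrt hR0.le
        calc √R * (12 * (L₁ + L₂) ^ 2 * (√lam * √R)) = 12 * (L₁ + L₂) ^ 2 * (√R * √R) * √lam := by ring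
          _ = _ := by rw [this]

end Pool.Agent.Results.MP_c7f82c_an.LiouvilleTori
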