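import Pool.Agent.Y291.PA.Final

/-!
# Average doubling index on tori whose metric is analytic in one variable

The torus is `ℝ × ℝ` modulo the lattice generated by `(L, α)` and `(0, 2π)`, with the metric
`ρ(x, y)(dx² + dy²)`, where `ρ` is continuous in both variables and real analytic in `y` only
(uniformly).  This contains, with no assumption on the profile besides continuity (for instance for
every smooth, nowhere analytic profile), all metrics invariant under a circle action on the torus.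

For all eigenfunctions and all admissible coverings of the question the average doubling index is at
most `A log (2 + λ)`, and for every `0 < p < 1` the average of the `p`-th powers of the doubling
indices is bounded by a constant that depends only on the metric, `p` and the constants of the
covering.
-/

set_option autoImplicit false

namespace Pool.Agent.Results.MP_c7f82c_an.LogarithmicAverage

open Pool.Agent.Y291.DB Pool.Agent.Y291.PA

/-- A weak type bound gives bounds for the sums of powers `p < 1`. -/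
theorem sum_rpow_le {ι : Type} [DecidableEq ι] (f : ι → ℝ) (hf : ∀ i, 0 ≤ f i) {M p : ℝ}
    (hM : 0 ≤ M) (hp0 : 0 < p) (hp1 : p < 1) (n : ℕ) :
    ∀ s : Finset ι, s.card = n →
      (∀ t : ℝ, 0 < t → t * ((s.filter fun i => t ≤ f i).card : ℝ) ≤ M) →
      ∑ i ∈ s, f i ^ p ≤ M ^ p * ((n : ℝ) ^ (1 - p) / (1 - p)) := by
  have h1p : 0 < 1 - p := by linarith
  induction n with
  | zero =>
    intro s hs _
    rw [Finset.card_eq_zero] at hs
    subst hs
    rw [Finset.sum_empty]
    positivity
  | succ n ih =>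
    intro s hs hw
    have hne : s.Nonempty := by
      rw [← Finset.card_pos, hs]
      exact Nat.succ_pos n
    obtain ⟨i0, hi0, hmin⟩ := Finset.exists_min_image s f hne
    have hcard : (s.erase i0).card = n := by
      rw [Finset.card_erase_of_mem hi0, hs]
      rfl
    have hrec := ih (s.erase i0) hcard (fun t ht => by
      refine le_trans ?_ (hw t ht)
      refine mul_le_mul_of_nonneg_left ?_ ht.le
      exact_mod_cast Finset.card_le_card (Finset.filter_subset_filter _ (Finset.erase_subset _ _)))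
    rw [← Finset.add_sum_erase s _ hi0]
    have hn : (0 : ℝ) < ((n + 1 : ℕ) : ℝ) := by
      push_cast
      positivity
    -- the smallest value
    have hsmall : f i0 ≤ M / ((n + 1 : ℕ) : ℝ) := by
      rcases (hf i0).eq_or_lt with h0 | h0
      · rw [← h0]
        positivity
      · have h2 := hw (f i0) h0
        have h3 : s.filter (fun i => f i0 ≤ f i) = s := Finset.filter_true_of_mem hmin
        rw [h3, hs] at h2
        rw [le_div_iff₀ hn]
        exact h2
    have hpow : f i0 ^ p ≤ M ^ p * ((n + 1 : ℕ) : ℝ) ^ (-p) := by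
      calc f i0 ^ p ≤ (M / ((n + 1 : ℕ) : ℝ)) ^ p := Real.rpow_le_rpow (hf i0) hsmall hp0.le
        _ = M ^ p * ((n + 1 : ℕ) : ℝ) ^ (-p) := by
            rw [Real.div_rpow hM hn.le, Real.rpow_neg hn.le]
            rfl
    -- concavity
    have hconc : ((n + 1 : ℕ) : ℝ) ^ (-p) + (n : ℝ) ^ (1 - p) / (1 - p) ≤
        ((n + 1 : ℕ) : ℝ) ^ (1 - p) / (1 - p) := by
      have hb := rpow_one_add_le_one_add_mul_self (s := -1 / ((n + 1 : ℕ) : ℝ))
        (by
          rw [neg_div, neg_le_neg_iff, div_le_one hn]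
          push_cast
          linarith [Nat.cast_nonneg (α := ℝ) n]) (p := 1 - p) h1p.le (by linarith)
      have e1 : (n : ℝ) = ((n + 1 : ℕ) : ℝ) * (1 + -1 / ((n + 1 : ℕ) : ℝ)) := by
        field_simp
        push_cast
        ring
      have hnn : (0 : ℝ) ≤ 1 + -1 / ((n + 1 : ℕ) : ℝ) := by
        have : 1 + -1 / ((n + 1 : ℕ) : ℝ) = (n : ℝ) / ((n + 1 : ℕ) : ℝ) := by
          field_simp
          push_cast
          ring
        rw [this]
        positivity
      have e2 : (n : ℝ) ^ (1 - p) ≤ ((n + 1 : ℕ) : ℝ) ^ (1 - p) *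
          (1 + (1 - p) * (-1 / ((n + 1 : ℕ) : ℝ))) := by
        calc (n : ℝ) ^ (1 - p) = (((n + 1 : ℕ) : ℝ) * (1 + -1 / ((n + 1 : ℕ) : ℝ))) ^ (1 - p) := by
              rw [← e1]
          _ = ((n + 1 : ℕ) : ℝ) ^ (1 - p) * (1 + -1 / ((n + 1 : ℕ) : ℝ)) ^ (1 - p) :=
              Real.mul_rpow hn.le hnn
          _ ≤ _ := mul_le_mul_of_nonneg_left hb (by positivity)
      have e3 : ((n + 1 : ℕ) : ℝ) ^ (-p) = ((n + 1 : ℕ) : ℝ) ^ (1 - p) / ((n + 1 : ℕ) : ℝ) := by
        rw [show -p = (1 - p) - 1 by ring, Real.rpow_sub_one hn.ne']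
      rw [e3]
      rw [div_add_div _ _ hn.ne' h1p.ne', div_le_div_iff₀ (by positivity) h1p]
      have e4 : (n : ℝ) ^ (1 - p) * ((n + 1 : ℕ) : ℝ) ≤ ((n + 1 : ℕ) : ℝ) ^ (1 - p) *
          (((n + 1 : ℕ) : ℝ) - (1 - p)) := by
        calc (n : ℝ) ^ (1 - p) * ((n + 1 : ℕ) : ℝ) ≤ (((n + 1 : ℕ) : ℝ) ^ (1 - p) *
          (1 + (1 - p) * (-1 / ((n + 1 : ℕ) : ℝ)))) * ((n + 1 : ℕ) : ℝ) :=
              mul_le_mul_of_nonneg_right e2 hn.le
          _ = _ := by
              field_simp
              ring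
      nlinarith [e4, h1p]
    have hMp : 0 ≤ M ^ p := Real.rpow_nonneg hM p
    calc f i0 ^ p + ∑ i ∈ s.erase i0, f i ^ p ≤ M ^ p * ((n + 1 : ℕ) : ℝ) ^ (-p) +
          M ^ p * ((n : ℝ) ^ (1 - p) / (1 - p)) := add_le_add hpow hrec
      _ = M ^ p * (((n + 1 : ℕ) : ℝ) ^ (-p) + (n : ℝ) ^ (1 - p) / (1 - p)) := by ring
      _ ≤ _ := mul_le_mul_of_nonneg_left hconc hMp

theorem doubling_nonneg {ρ : ℝ × ℝ → ℝ} {L α lam : ℝ} {φ : ℝ × ℝ → ℝ} (hL : 0 < L)
    (hφ : Eigen ρ L α lam φ) (p : ℝ × ℝ) {r : ℝ} (hr : 0 ≤ r) : 0 ≤ doubling ρ L α φ p r := by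
  obtain ⟨M, -, hM⟩ := bounded_of_per hL hφ.smooth.continuous hφ.perx hφ.pery
  unfold doubling
  have hsub : disc ρ L α p r ⊆ disc ρ L α p (2 * r) := by
    intro q hq
    have h1 : gdist ρ L α p q < r := hq
    show gdist ρ L α p q < 2 * r
    linarith
  have hbdd : BddAbove ((fun q => |φ q|) '' disc ρ L α p (2 * r)) := by
    refine ⟨M, ?_⟩
    rintro _ ⟨q, -, rfl⟩
    exact hM q
  have h0 : 0 ≤ sSup ((fun q => |φ q|) '' disc ρ L α p r) := by
    refine Real.sSup_nonneg ?_
    rintro _ ⟨q, -, rfl⟩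
    exact abs_nonneg _
  rcases h0.eq_or_lt with h | h
  · rw [← h, div_zero, Real.logb_zero]
  · have hne : ((fun q => |φ q|) '' disc ρ L α p r).Nonempty := by
      by_contra hcon
      rw [Set.not_nonempty_iff_eq_empty] at hcon
      rw [hcon, Real.sSup_empty] at h
      exact lt_irrefl _ h
    refine Real.logb_nonneg (by norm_num) ?_
    rw [one_le_div h]
    exact csSup_le_csSup hbdd hne (Set.image_mono hsub)

/-- Let `ρ` be a continuous positive function on the torus, analytic in the second variable.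

(1) For all `C, C₁, C₂ > 0` there is a constant `A` such that for all eigenvalues `lam`, all
eigenfunctions and all admissible coverings with the constants `C, C₁, C₂` the average of the
doubling indices of the discs is at most `A log (2 + lam)`.

(2) For all `C, C₁, C₂ > 0` and `0 < p < 1` there is a constant `A` such that for all eigenfunctions
and all admissible coverings the average of the `p`-th powers of the doubling indices is at most
`A`. -/
theorem result (ρ : ℝ × ℝ → ℝ) (L α : ℝ) (hL : 0 < L) (hρc : Continuous ρ)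
    (hρpos : ∀ p, 0 < ρ p) (hρx : ∀ p : ℝ × ℝ, ρ (p.1 + L, p.2 + α) = ρ p)
    (hρy : ∀ p : ℝ × ℝ, ρ (p.1, p.2 + 2 * Real.pi) = ρ p) (hρa : AnalyticInSecond ρ)
    (C C₁ C₂ : ℝ) (hC : 0 < C) (hC₁ : 0 < C₁) (hC₂ : 0 < C₂) :
    (∃ A : ℝ, 0 < A ∧ ∀ (lam : ℝ) (φ : ℝ × ℝ → ℝ), Eigen ρ L α lam φ →
      ∀ (ι : Type) [Fintype ι] (c : ι → ℝ × ℝ), Admissible ρ L α lam φ C C₁ C₂ c →
        (∑ i, doubling ρ L α φ (c i) (C / Real.sqrt lam)) / Fintype.card ι ≤
          A * Real.log (2 + lam)) ∧
    ∀ p : ℝ, 0 < p → p < 1 → ∃ A : ℝ, 0 < A ∧ ∀ (lam : ℝ) (φ : ℝ × ℝ → ℝ), Eigen ρ L α lam φ →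
      ∀ (ι : Type) [Fintype ι] (c : ι → ℝ × ℝ), Admissible ρ L α lam φ C C₁ C₂ c →
        (∑ i, doubling ρ L α φ (c i) (C / Real.sqrt lam) ^ p) / Fintype.card ι ≤ A := by
  classical
  obtain ⟨a, ha, hmain⟩ := main hL hρc hρpos hρx hρy hρa hC hC₁ hC₂
  refine ⟨⟨a, ha, fun lam φ hφ ι _ c hc => ?_⟩, fun p hp0 hp1 => ?_⟩
  · have h := (hmain lam φ hφ ι c hc).2
    rcases (Nat.cast_nonneg (α := ℝ) (Fintype.card ι)).eq_or_lt with h0 | h0
    · rw [← h0, div_zero]
      have := Real.log_nonneg (show (1 : ℝ) ≤ 2 + lam by linarith [hφ.pos])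
      positivity
    · rw [div_le_iff₀ h0]
      exact h
  · have h1p : 0 < 1 - p := by linarith
    refine ⟨a ^ p / (1 - p), div_pos (Real.rpow_pos_of_pos ha p) h1p, fun lam φ hφ ι _ c hc => ?_⟩
    have hw := (hmain lam φ hφ ι c hc).1
    have hr : 0 ≤ C / Real.sqrt lam := by positivity
    rcases (Nat.cast_nonneg (α := ℝ) (Fintype.card ι)).eq_or_lt with h0 | h0
    · rw [← h0, div_zero]
      exact (div_pos (Real.rpow_pos_of_pos ha p) h1p).le
    · rw [div_le_iff₀ h0]
      have key := sum_rpow_le (fun i => doubling ρ L α φ (c i) (C / Real.sqrt lam))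
        (fun i => doubling_nonneg hL hφ _ hr) (M := a * Fintype.card ι) (p := p) (by positivity)
        hp0 hp1 (Fintype.card ι) Finset.univ Finset.card_univ (fun t ht => by
          have h2 := hw t ht
          rw [Set.ncard_eq_toFinset_card'] at h2
          have h3 : (Finset.univ.filter fun i => t ≤ doubling ρ L α φ (c i) (C / Real.sqrt lam)).card
              = ({i | t ≤ doubling ρ L α φ (c i) (C / Real.sqrt lam)} : Set ι).toFinset.card := by
            congr 1
            ext i
            simp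
          rw [h3]
          calc t * (({i | t ≤ doubling ρ L α φ (c i) (C / Real.sqrt lam)} : Set ι).toFinset.card : ℝ)
              ≤ t * (a / t * Fintype.card ι) := mul_le_mul_of_nonneg_left h2 ht.le
            _ = a * Fintype.card ι := by
                field_simp)
      refine key.trans (le_of_eq ?_)
      rw [Real.mul_rpow ha.le h0.le]
      have e1 : (Fintype.card ι : ℝ) ^ p * (Fintype.card ι : ℝ) ^ (1 - p) = Fintype.card ι := by
        rw [← Real.rpow_add h0]
        simp
      calc a ^ p * (Fintype.card ι : ℝ) ^ p * ((Fintype.card ι : ℝ) ^ (1 - p) / (1 - p))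
          = a ^ p / (1 - p) * ((Fintype.card ι : ℝ) ^ p * (Fintype.card ι : ℝ) ^ (1 - p)) := by ring
        _ = _ := by rw [e1]

end Pool.Agent.Results.MP_c7f82c_an.LogarithmicAverage
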