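import Mathlib
import Pool.Agent.Q167.SR.Six
set_option autoImplicit false

/-!
# Yau's upper bound for the nodal length on smooth spheres of revolution

A rotationally symmetric metric on the sphere is, outside the two poles, the metric
`ρ(x) (dx² + dy²)` on the cylinder `ℝ × (ℝ/2πℤ)`, where `x` is the conformal latitude and
`ρ(x) = O(e^{-2|x|})`. Eigenfunctions of the Laplacian with eigenvalue `λ` are bounded functions
`φ` on the cylinder with `φ_xx + φ_yy + λ ρ φ = 0`. We only need `0 < ρ(x) ≤ A e^{-|x|}`. No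
analyticity is assumed.

We prove for ALL such `φ` that the Riemannian length of the nodal set `{φ = 0}` is at most
`5000 √A (1 + √(λ A))`, that `φ` has at most `2 + 10 √(λ A)` zeros on every meridian
`{y = const}` and at most `2π √(λ A)` zeros on every parallel `{x = const}`, whenever it does not
vanish identically there.

The proof uses Sturm's argument on the (noncompact) meridians: the operator
`M - ∂_x² - λ ρ(x) = M + ∂_y²` does not decrease the number of zeros of `φ(·, y)`, the zeros of the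
iterates cannot escape to the poles, and the iterates converge to a single separated solution.
-/

namespace Pool.Agent.Results.MP_c7f82c_an.SpheresOfRevolution

open Set Filter MeasureTheory Measure
open scoped ContDiff ENNReal

/-- `φ ≢ 0` is an eigenfunction with eigenvalue `lam` of the Laplace–Beltrami operator of the
metric `ρ(x) (dx² + dy²)`, given on the cylinder `ℝ × (ℝ/2πℤ)` (the sphere without its poles), where
it is bounded. -/
structure IsEigenfunction (ρ : ℝ → ℝ) (lam : ℝ) (φ : ℝ × ℝ → ℝ) : Prop where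
  smooth : ContDiff ℝ ∞ φ
  periodic_y : ∀ x y, φ (x, y + 2 * Real.pi) = φ (x, y)
  bounded : ∃ B, ∀ z, |φ z| ≤ B
  ne_zero : φ ≠ 0
  eq : ∀ x y, iteratedDeriv 2 (fun s => φ (s, y)) x + iteratedDeriv 2 (fun t => φ (x, t)) y +
    lam * (ρ x * φ (x, y)) = 0

/-- The nodal set on `ℝ × [0, 2π]`, as a subset of the Euclidean plane `ℂ`. -/
def nodalSet (φ : ℝ × ℝ → ℝ) : Set ℂ := {z | (0 ≤ z.im ∧ z.im ≤ 2 * Real.pi) ∧ φ (z.re, z.im) = 0}

/-- The length of the nodal set for the metric `ρ(x) (dx² + dy²)`: the integral of `√ρ(x)` over the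
nodal set with respect to the one-dimensional Hausdorff measure of the Euclidean plane. -/
noncomputable def nodalLength (ρ : ℝ → ℝ) (φ : ℝ × ℝ → ℝ) : ENNReal :=
  ∫⁻ z in nodalSet φ, ENNReal.ofReal (√(ρ z.re)) ∂μH[1]

theorem result (ρ : ℝ → ℝ) (hρ : Continuous ρ) (A : ℝ) (hpos : ∀ x, 0 < ρ x)
    (hA : ∀ x, ρ x ≤ A * Real.exp (-|x|)) (lam : ℝ) (hlam : 0 < lam) (φ : ℝ × ℝ → ℝ)
    (hφ : IsEigenfunction ρ lam φ) :
    nodalLength ρ φ ≤ ENNReal.ofReal (5000 * √A * (1 + √(lam * A))) ∧
    (∀ y, (∃ x, φ (x, y) ≠ 0) → {x | φ (x, y) = 0}.Finite ∧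
      ({x | φ (x, y) = 0}.ncard : ℝ) ≤ 2 + 10 * √(lam * A)) ∧
    ∀ x, (∃ y, φ (x, y) ≠ 0) → {y | φ (x, y) = 0 ∧ 0 ≤ y ∧ y < 2 * Real.pi}.Finite ∧
      ({y | φ (x, y) = 0 ∧ 0 ≤ y ∧ y < 2 * Real.pi}.ncard : ℝ) ≤ 2 * Real.pi * √(lam * A) := by
  open Pool.Agent.Q167.LV Pool.Agent.Q167.SR in
  have hA0 : 0 < A := by
    have h1 := lt_of_lt_of_le (hpos 0) (hA 0)
    simpa using h1
  set Λ : ℝ := lam * A with hΛ
  have hΛ0 : 0 < Λ := mul_pos hlam hA0
  have hs := hφ.smooth
  have hne : ∃ z, φ z ≠ 0 := by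
    by_contra hcon
    push Not at hcon
    exact hφ.ne_zero (funext hcon)
  have hq0 : ∀ x, 0 < (fun x => lam * ρ x) x := fun x => mul_pos hlam (hpos x)
  have hc : Cyl Λ (fun x => lam * ρ x) φ := by
    refine ⟨hs, hφ.periodic_y, hφ.bounded, ?_, continuous_const.mul hρ, fun x => (hq0 x).le, fun x => ?_⟩
    · rintro ⟨x, y⟩
      have e1 : iteratedDeriv 2 (fun s => φ (s, y)) x = px (px φ) (x, y) := by
        rw [iteratedDeriv_succ, iteratedDeriv_one]
        have : deriv (fun s => φ (s, y)) = fun s => px φ (s, y) := funext fun s => (hx hs s y).deriv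
        rw [this]
        exact (hx (px_smooth hs) x y).deriv
      have e2 : iteratedDeriv 2 (fun t => φ (x, t)) y = py (py φ) (x, y) := by
        rw [iteratedDeriv_succ, iteratedDeriv_one]
        have : deriv (fun t => φ (x, t)) = fun t => py φ (x, t) := funext fun t => (hy hs x t).deriv
        rw [this]
        exact (hy (py_smooth hs) x y).deriv
      have e3 := hφ.eq x y
      rw [e1, e2] at e3
      simp only
      linarith
    · have h1 := mul_le_mul_of_nonneg_left (hA x) hlam.le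
      simp only [hΛ]
      linarith
  refine ⟨?_, fun y hy => ?_, fun x hx => ?_⟩
  · -- the length
    set Z : ℝ → Set ℂ := fun X => {z : ℂ | (X ≤ z.re ∧ z.re ≤ X + 1) ∧ (0 ≤ z.im ∧ z.im ≤ 2 * Real.pi) ∧
      φ (z.re, z.im) = 0} with hZ
    have hcov : nodalSet φ ⊆ ⋃ n : ℕ, (Z n ∪ Z (-(n : ℝ) - 1)) := by
      intro z hz
      rcases le_total 0 z.re with h | h
      · refine mem_iUnion.2 ⟨⌊z.re⌋₊, Or.inl ⟨⟨Nat.floor_le h, (Nat.lt_floor_add_one _).le⟩, hz.1, hz.2⟩⟩
      · refine mem_iUnion.2 ⟨⌊-z.re⌋₊, Or.inr ⟨⟨?_, ?_⟩, hz.1, hz.2⟩⟩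
        · have := (Nat.lt_floor_add_one (-z.re)).le
          linarith
        · have := Nat.floor_le (show 0 ≤ -z.re by linarith)
          linarith
    set g : ℂ → ℝ≥0∞ := fun z => ENNReal.ofReal (√(ρ z.re)) with hg
    set C : ℝ := 850 * (1 + √Λ) with hC
    have hC0 : 0 ≤ C := by positivity
    -- one strip
    have hex : Real.exp (-(1 / 2)) ≤ 5 / 8 := by
      have h1 : 1 + 1 / 2 + (1 / 2 : ℝ) ^ 2 / 2 ≤ Real.exp (1 / 2) := Real.quadratic_le_exp_of_nonneg (by norm_num)
      rw [Real.exp_neg, inv_le_comm₀ (Real.exp_pos _) (by norm_num)]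
      norm_num at h1 ⊢
      linarith
    have hstrip : ∀ (n : ℕ) (X : ℝ), (∀ z ∈ Z X, (n : ℝ) ≤ |z.re|) →
        ∫⁻ z in Z X, g z ∂μH[1] ≤ ENNReal.ofReal (√A * (5 / 8) ^ n * C) := by
      intro n X hX
      have h1 : ∀ z ∈ Z X, g z ≤ ENNReal.ofReal (√A * (5 / 8) ^ n) := by
        intro z hz
        apply ENNReal.ofReal_le_ofReal
        have h2 := hA z.re
        have h3 : Real.exp (-|z.re|) ≤ Real.exp (-(n : ℝ)) := Real.exp_le_exp.2 (by linarith [hX z hz])
        have h4 : ρ z.re ≤ A * Real.exp (-(n : ℝ)) := h2.trans (mul_le_mul_of_nonneg_left h3 hA0.le)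
        have h5 : A * Real.exp (-(n : ℝ)) = (√A * Real.exp (-(1 / 2)) ^ n) ^ 2 := by
          rw [mul_pow, Real.sq_sqrt hA0.le, ← Real.exp_nat_mul, ← Real.exp_nat_mul]
          congr 2
          push_cast
          ring
        calc √(ρ z.re) ≤ √((√A * Real.exp (-(1 / 2)) ^ n) ^ 2) := Real.sqrt_le_sqrt (h4.trans h5.le)
          _ = √A * Real.exp (-(1 / 2)) ^ n := Real.sqrt_sq (by positivity)
          _ ≤ √A * (5 / 8) ^ n := mul_le_mul_of_nonneg_left
            (pow_le_pow_left₀ (Real.exp_pos _).le hex n) (Real.sqrt_nonneg _)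
      calc ∫⁻ z in Z X, g z ∂μH[1] ≤ ∫⁻ _z in Z X, ENNReal.ofReal (√A * (5 / 8) ^ n) ∂μH[1] :=
            setLIntegral_mono measurable_const h1
        _ = ENNReal.ofReal (√A * (5 / 8) ^ n) * μH[1] (Z X) := setLIntegral_const _ _
        _ ≤ ENNReal.ofReal (√A * (5 / 8) ^ n) * ENNReal.ofReal C := by
            gcongr
            exact strip hΛ0 hc hq0 hne X
        _ = ENNReal.ofReal (√A * (5 / 8) ^ n * C) := by
            rw [← ENNReal.ofReal_mul (by positivity)]
    have hsumm : Summable fun n : ℕ => 2 * √A * C * (5 / 8 : ℝ) ^ n :=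
      (summable_geometric_of_lt_one (by norm_num) (by norm_num)).mul_left _
    have htsum : ∑' n : ℕ, 2 * √A * C * (5 / 8 : ℝ) ^ n = 2 * √A * C * (8 / 3) := by
      rw [tsum_mul_left, tsum_geometric_of_lt_one (by norm_num) (by norm_num)]
      norm_num
    calc nodalLength ρ φ ≤ ∫⁻ z in ⋃ n : ℕ, (Z n ∪ Z (-(n : ℝ) - 1)), g z ∂μH[1] := lintegral_mono_set hcov
      _ ≤ ∑' n : ℕ, ∫⁻ z in (Z n ∪ Z (-(n : ℝ) - 1)), g z ∂μH[1] := lintegral_iUnion_le _ _
      _ ≤ ∑' n : ℕ, ENNReal.ofReal (2 * √A * C * (5 / 8) ^ n) := by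
          apply ENNReal.tsum_le_tsum
          intro n
          refine (lintegral_union_le _ _ _).trans ?_
          have e1 := hstrip n n (fun z hz => (hz.1.1).trans (le_abs_self _))
          have e2 := hstrip n (-(n : ℝ) - 1) (fun z hz => by
            have h1 := hz.1.2
            have h2 := neg_abs_le z.re
            linarith)
          refine (add_le_add e1 e2).trans ?_
          rw [← ENNReal.ofReal_add (by positivity) (by positivity)]
          apply ENNReal.ofReal_le_ofReal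
          linarith
      _ = ENNReal.ofReal (2 * √A * C * (8 / 3)) := by
          rw [← ENNReal.ofReal_tsum_of_nonneg (fun n => by positivity) hsumm, htsum]
      _ ≤ ENNReal.ofReal (5000 * √A * (1 + √Λ)) := by
          apply ENNReal.ofReal_le_ofReal
          have h1 : 0 ≤ √A * (1 + √Λ) := by positivity
          rw [hC]
          nlinarith
  · obtain ⟨h1, h2⟩ := mer_finite hΛ0 hc hy
    refine ⟨h1, ?_⟩
    rw [ncard_eq_toFinset_card _ h1]
    exact h2 _ fun x hx => by simpa using hx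
  · obtain ⟨f1, f2⟩ := zeros_finite (u := fun y => φ (x, y)) (L := 2 * Real.pi) (fun y => hφ.periodic_y x y)
      (fun n hn hz => parallel hΛ0 hc hx hn hz) 0
    simp only [zero_add] at f1 f2
    refine ⟨f1, ?_⟩
    rw [ncard_eq_toFinset_card _ f1]
    rcases Nat.eq_zero_or_pos f1.toFinset.card with h | h
    · rw [h]; simp only [Nat.cast_zero]; positivity
    · exact f2 _ h fun x hx => by simpa using hx

end Pool.Agent.Results.MP_c7f82c_an.SpheresOfRevolution
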